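import Pool.Agent.Helper406.AltSpace

namespace Pool.Agent.Results.MP_b372c7_an.AlternatingNonHilbert

open Pool.Agent.Helper406.AltMethod

/-- Over `𝕜 = ℝ` and over `𝕜 = ℂ` there is an infinite-dimensional, reflexive, strictly convex
Banach space which admits the alternating method although its norm is not induced by an inner
product. -/
theorem result (𝕜 : Type) [RCLike 𝕜] :
    ∃ (E : Type) (_ : NormedAddCommGroup E) (_ : NormedSpace 𝕜 E),
      CompleteSpace E ∧ InfiniteDimensional 𝕜 E ∧ ReflexiveSpace 𝕜 E ∧ StrictlyConvex E ∧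
      UniqueNearestPoints 𝕜 E ∧ AdmitsAlternatingMethod 𝕜 E ∧ ¬ NormFromInnerProduct 𝕜 E := by
  have hc : CompleteSpace (X 𝕜) := X_complete 𝕜
  refine ⟨X 𝕜, inferInstance, inferInstance, hc, X_infinite 𝕜, X_reflexive 𝕜, ?_, ?_, ?_,
    X_not_inner 𝕜⟩
  · intro x y hx hy hxy
    exact strict_convex (𝕜 := 𝕜) (m := 1 / 10) (by norm_num) (X_lower 𝕜) x y hx hy hxy
  · intro G hG x
    exact existsUnique_nearest (m := 1 / 10) (by norm_num) (X_lower 𝕜) G hG x
  · exact admits (m := 1 / 10) (M := 2) (by norm_num) (by norm_num) (X_lower 𝕜) (X_upper 𝕜)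

end Pool.Agent.Results.MP_b372c7_an.AlternatingNonHilbert
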